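import Pool.Agent.Y744.NB.Stm

/-!
# Project NB, job PT: the first equation pointwise in `x`
-/

set_option autoImplicit false

open MeasureTheory Set Filter Topology Metric

namespace Pool.Agent.Y656.NB.PT

open Pool.Agent.Y744.NB

theorem t : S_PT := by
  intro N K f u₀ T M u v hK hf hu₀ hT hS
  classical
  have h0T : (0 : ℝ) ∈ Icc 0 T := ⟨le_rfl, hT.le⟩
  have hM : 0 ≤ M := (hS.u_nonneg 0 h0T 0).trans (hS.u_le 0 h0T 0)
  have hKi : Integrable K := hK.cont.integrable_of_hasCompactSupport hK.supp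
  have hK0 : 0 ≤ ∫ y, K y := integral_nonneg hK.nonneg
  obtain ⟨Cf, hCf⟩ : ∃ C, ∀ r ∈ Icc 0 M, |f r| ≤ C := by
    obtain ⟨C, hC⟩ := isCompact_Icc.exists_bound_of_continuousOn (hf.continuousOn (s := Icc 0 M))
    exact ⟨C, fun r hr => by simpa using hC r hr⟩
  -- the right side
  obtain ⟨G, hG⟩ : ∃ G : ℝ × E N → ℝ, G = fun q => if q.1 ∈ Icc 0 T then
      v q.1 q.2 * f (u q.1 q.2) - nonlocalOp K (u q.1) q.2 else 0 := ⟨_, rfl⟩
  have hum : Measurable fun q : ℝ × E N => u q.1 q.2 := hS.measurable_u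
  have hvm : Measurable fun q : ℝ × E N => v q.1 q.2 := hS.measurable_v
  have hconv : Measurable fun q : ℝ × E N => ∫ y, K y * u q.1 (q.2 - y) := by
    have h1 : Measurable fun p : (ℝ × E N) × E N => K p.2 * u p.1.1 (p.1.2 - p.2) := by
      refine (hK.cont.measurable.comp measurable_snd).mul ?_
      have h2 : Measurable fun p : (ℝ × E N) × E N => (p.1.1, p.1.2 - p.2) :=
        (measurable_fst.comp measurable_fst).prodMk
          ((measurable_snd.comp measurable_fst).sub measurable_snd)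
      exact hS.measurable_u.comp h2
    exact h1.stronglyMeasurable.integral_prod_right'.measurable
  have hGm : Measurable G := by
    rw [hG]
    refine Measurable.ite (measurable_fst measurableSet_Icc) ?_ measurable_const
    unfold nonlocalOp
    exact (hvm.mul (hf.measurable.comp hum)).sub ((measurable_const.mul hum).sub hconv)
  obtain ⟨C, hC⟩ : ∃ C : ℝ, C = Cf + 2 * (M * ∫ y, K y) := ⟨_, rfl⟩
  have hC0 : 0 ≤ C := by
    have h1 : 0 ≤ Cf := (abs_nonneg _).trans (hCf 0 ⟨le_rfl, hM⟩)
    rw [hC]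
    positivity
  have hGb : ∀ q, |G q| ≤ C := by
    intro q
    rw [hG]
    by_cases hq : q.1 ∈ Icc 0 T
    · simp only [hq, if_true]
      have hu1 := hS.u_nonneg q.1 hq q.2
      have hu2 := hS.u_le q.1 hq q.2
      have hv1 := hS.v_mem q.1 hq q.2
      have b1 : |v q.1 q.2 * f (u q.1 q.2)| ≤ Cf := by
        rw [abs_mul, abs_of_nonneg hv1.1]
        calc v q.1 q.2 * |f (u q.1 q.2)| ≤ 1 * |f (u q.1 q.2)| :=
              mul_le_mul_of_nonneg_right hv1.2 (abs_nonneg _)
          _ = |f (u q.1 q.2)| := one_mul _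
          _ ≤ Cf := hCf _ ⟨hu1, hu2⟩
      have b2 : |(∫ y, K y) * u q.1 q.2| ≤ M * ∫ y, K y := by
        rw [abs_of_nonneg (mul_nonneg hK0 hu1), mul_comm]
        exact mul_le_mul_of_nonneg_right hu2 hK0
      have b3 : |∫ y, K y * u q.1 (q.2 - y)| ≤ M * ∫ y, K y := by
        have h1 : 0 ≤ ∫ y, K y * u q.1 (q.2 - y) :=
          integral_nonneg fun y => mul_nonneg (hK.nonneg y) (hS.u_nonneg q.1 hq _)
        rw [abs_of_nonneg h1, ← integral_const_mul]
        refine integral_mono_of_nonneg (Eventually.of_forall fun y =>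
          mul_nonneg (hK.nonneg y) (hS.u_nonneg q.1 hq _)) (hKi.const_mul M)
          (Eventually.of_forall fun y => ?_)
        simp only
        rw [mul_comm]
        exact mul_le_mul_of_nonneg_right (hS.u_le q.1 hq _) (hK.nonneg y)
      unfold nonlocalOp
      rw [hC]
      rw [abs_le] at b1 b2 b3 ⊢
      constructor <;> linarith [b1.1, b1.2, b2.1, b2.2, b3.1, b3.2]
    · simp only [hq, if_false, abs_zero]
      exact hC0
  have hGint : ∀ (x : E N) (a b : ℝ), IntervalIntegrable (fun s => G (s, x)) volume a b := by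
    intro x a b
    have h1 : Measurable fun s : ℝ => G (s, x) := hGm.comp (measurable_id.prodMk measurable_const)
    refine (intervalIntegrable_const (c := C)).mono_fun h1.aestronglyMeasurable ?_
    refine Eventually.of_forall fun s => ?_
    simp only [Real.norm_eq_abs]
    rw [abs_of_nonneg hC0]
    exact hGb _
  -- the integrated equation
  obtain ⟨I, hI⟩ : ∃ I : ℝ × E N → ℝ, I = fun q => ∫ r, (if 0 < r ∧ r ≤ q.1 then G (r, q.2) else 0) :=
    ⟨_, rfl⟩
  have hIm : Measurable I := by
    have h1 : Measurable fun p : (ℝ × E N) × ℝ =>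
        (if 0 < p.2 ∧ p.2 ≤ p.1.1 then G (p.2, p.1.2) else 0) := by
      refine Measurable.ite ?_ ?_ measurable_const
      · exact (measurableSet_lt measurable_const measurable_snd).inter
          (measurableSet_le measurable_snd (measurable_fst.comp measurable_fst))
      · exact hGm.comp (measurable_snd.prodMk (measurable_snd.comp measurable_fst))
    rw [hI]
    exact h1.stronglyMeasurable.integral_prod_right'.measurable
  have hIeq : ∀ t, 0 ≤ t → ∀ x, I (t, x) = ∫ s in (0:ℝ)..t, G (s, x) := by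
    intro t ht x
    rw [hI, intervalIntegral.integral_of_le ht, ← integral_indicator measurableSet_Ioc]
    refine integral_congr_ae (Eventually.of_forall fun r => ?_)
    simp only [indicator, mem_Ioc]
  have hae : ∀ s : ℝ, ∀ᵐ x, s ∈ Icc 0 T → u s x = u₀ x + I (s, x) := by
    intro s
    by_cases hs : s ∈ Icc 0 T
    · filter_upwards [hS.eq_u s hs] with x hx _
      rw [hx, hIeq s hs.1 x]
      congr 1
      apply intervalIntegral.integral_congr
      intro r hr
      rw [uIcc_of_le hs.1] at hr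
      have hr2 : r ∈ Icc 0 T := ⟨hr.1, hr.2.trans hs.2⟩
      rw [hG]
      simp only [hr2, if_true]
    · exact Eventually.of_forall fun x h => absurd h hs
  have hset : MeasurableSet {q : ℝ × E N | q.1 ∈ Icc 0 T → u q.1 q.2 = u₀ q.2 + I (q.1, q.2)} := by
    have h1 : MeasurableSet {q : ℝ × E N | u q.1 q.2 = u₀ q.2 + I (q.1, q.2)} :=
      measurableSet_eq_fun hum ((hu₀.comp measurable_snd).add hIm)
    have h2 : MeasurableSet {q : ℝ × E N | q.1 ∈ Icc 0 T} := measurable_fst measurableSet_Icc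
    have h3 : {q : ℝ × E N | q.1 ∈ Icc 0 T → u q.1 q.2 = u₀ q.2 + I (q.1, q.2)} =
        {q : ℝ × E N | q.1 ∈ Icc 0 T}ᶜ ∪ {q : ℝ × E N | u q.1 q.2 = u₀ q.2 + I (q.1, q.2)} := by
      ext q
      simp only [mem_ofPred_eq, mem_union, mem_compl_iff]
      tauto
    rw [h3]
    exact h2.compl.union h1
  have hcomm : ∀ᵐ x : E N, ∀ᵐ s : ℝ, s ∈ Icc 0 T → u s x = u₀ x + I (s, x) :=
    (Measure.ae_ae_comm (μ := (volume : Measure ℝ)) (ν := (volume : Measure (E N)))
      (p := fun s x => s ∈ Icc 0 T → u s x = u₀ x + I (s, x)) hset).1 (Eventually.of_forall hae)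
  filter_upwards [hcomm] with x hx
  refine ⟨fun t => u₀ x + ∫ s in (0:ℝ)..t, G (s, x), fun s => G (s, x), hGint x 0 T,
    fun t _ => rfl, ?_⟩
  filter_upwards [hx] with s hs hsT
  constructor
  · rw [hs hsT, hIeq s hsT.1 x]
  · rw [hG]
    simp only [hsT, if_true]

end Pool.Agent.Y656.NB.PT
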